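import Mathlib

/-!
# `f(d) ≤ ⌊d/2⌋ + 2` for every `d`

A colouring of `{1,2,3}^d` with `K` colours and no monochromatic line, for every odd `K ≥ 3` with
`K > ⌊d/2⌋`: the colour of `x` is `⌊n(x)/2⌋ + ∑ (x_i - 2)` modulo `K`, where `n(x)` is the number
of coordinates of `x` different from `2`.
-/

set_option autoImplicit false
open Finset

namespace Pool.Agent.Results.MP_fd3312_co.HalfDimension

/-- A letter of a string: a constant (`0, 1, 2` stand for the digits `1, 2, 3`), the arrow `↑`
(`Sum.inr true`) or the arrow `↓` (`Sum.inr false`). -/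
abbrev Letter := Fin 3 ⊕ Bool

/-- The `i`-th point (`i = 0, 1, 2` for first, second, third) of the line given by the string `w`:
each `↑` is replaced by `i` and each `↓` by `2 - i`. -/
def point {d : ℕ} (w : Fin d → Letter) (i : Fin 3) : Fin d → Fin 3 := fun j =>
  match w j with
  | Sum.inl c => c
  | Sum.inr true => i
  | Sum.inr false => Fin.rev i

/-- `χ` is a colouring of `{1,2,3}^d` with no monochromatic line; a line is given by a string
with at least one arrow. -/
def NoMonoLine {d k : ℕ} (χ : (Fin d → Fin 3) → Fin k) : Prop :=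
  ∀ w : Fin d → Letter, (∃ j b, w j = Sum.inr b) →
    ¬ (χ (point w 0) = χ (point w 1) ∧ χ (point w 1) = χ (point w 2))

/-- `f d` is the least number of colours. -/
noncomputable def f (d : ℕ) : ℕ :=
  sInf {k : ℕ | ∃ χ : (Fin d → Fin 3) → Fin k, NoMonoLine χ}

/-- The number of coordinates different from the middle digit. -/
def num {d : ℕ} (x : Fin d → Fin 3) : ℕ := ∑ j, if x j = 1 then 0 else 1

/-- The sum of the coordinates, the middle digit counting `0`. -/
def tot {d : ℕ} (x : Fin d → Fin 3) : ℤ := ∑ j, (((x j : ℕ) : ℤ) - 1)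

def up {d : ℕ} (w : Fin d → Letter) : ℕ := ∑ j, if w j = Sum.inr true then 1 else 0
def dn {d : ℕ} (w : Fin d → Letter) : ℕ := ∑ j, if w j = Sum.inr false then 1 else 0

lemma num_zero {d : ℕ} (w : Fin d → Letter) :
    num (point w 0) = num (point w 1) + up w + dn w := by
  unfold num up dn
  rw [← sum_add_distrib, ← sum_add_distrib]
  refine sum_congr rfl fun j _ => ?_
  rcases h : w j with c | b
  · simp [point, h]
  · cases b <;> simp [point, h]

lemma num_two {d : ℕ} (w : Fin d → Letter) :
    num (point w 2) = num (point w 1) + up w + dn w := by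
  unfold num up dn
  rw [← sum_add_distrib, ← sum_add_distrib]
  refine sum_congr rfl fun j _ => ?_
  rcases h : w j with c | b
  · simp [point, h]
  · cases b <;> simp [point, h]

lemma tot_zero {d : ℕ} (w : Fin d → Letter) :
    tot (point w 0) = tot (point w 1) - up w + dn w := by
  unfold tot up dn
  push_cast
  rw [← sum_sub_distrib, ← sum_add_distrib]
  refine sum_congr rfl fun j _ => ?_
  rcases h : w j with c | b
  · simp [point, h]
  · cases b <;> simp [point, h]

lemma tot_two {d : ℕ} (w : Fin d → Letter) :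
    tot (point w 2) = tot (point w 1) + up w - dn w := by
  unfold tot up dn
  push_cast
  rw [← sum_add_distrib, ← sum_sub_distrib]
  refine sum_congr rfl fun j _ => ?_
  rcases h : w j with c | b
  · simp [point, h]
  · cases b <;> simp [point, h]

lemma num_le {d : ℕ} (x : Fin d → Fin 3) : num x ≤ d := by
  unfold num
  calc ∑ j, (if x j = 1 then 0 else 1) ≤ ∑ _j : Fin d, 1 :=
        sum_le_sum fun j _ => by split <;> simp
    _ = d := by simp

/-- The integer whose residue is the colour. -/
def val {d : ℕ} (x : Fin d → Fin 3) : ℤ := ((num x / 2 : ℕ) : ℤ) + tot x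

/-- The colouring. -/
def col (d K : ℕ) (hK : 0 < K) (x : Fin d → Fin 3) : Fin K :=
  ⟨(val x % (K : ℤ)).toNat, by
    have h1 : 0 ≤ val x % (K : ℤ) := Int.emod_nonneg _ (by omega)
    have h2 : val x % (K : ℤ) < K := Int.emod_lt_of_pos _ (by omega)
    omega⟩

lemma col_eq {d K : ℕ} (hK : 0 < K) {x y : Fin d → Fin 3} (h : col d K hK x = col d K hK y) :
    (K : ℤ) ∣ val x - val y := by
  have h0 := congrArg Fin.val h
  simp only [col] at h0
  have h1 : 0 ≤ val x % (K : ℤ) := Int.emod_nonneg _ (by omega)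
  have h2 : 0 ≤ val y % (K : ℤ) := Int.emod_nonneg _ (by omega)
  have h3 : val x % (K : ℤ) = val y % (K : ℤ) := by omega
  have h4 : val y ≡ val x [ZMOD (K : ℤ)] := h3.symm
  exact h4.dvd

theorem noMono (d K : ℕ) (hodd : Odd K) (h3 : 3 ≤ K) (hd : d / 2 < K) :
    NoMonoLine (col d K (by omega)) := by
  rintro w ⟨j, b, hj⟩ ⟨h01, h12⟩
  have hm : 1 ≤ up w + dn w := by
    rcases b with _ | _
    · have : 1 ≤ dn w := by
        unfold dn
        calc 1 = (if w j = Sum.inr false then 1 else 0) := by simp [hj]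
          _ ≤ _ := single_le_sum (f := fun j => if w j = Sum.inr false then 1 else 0)
              (fun _ _ => by positivity) (mem_univ j)
      omega
    · have : 1 ≤ up w := by
        unfold up
        calc 1 = (if w j = Sum.inr true then 1 else 0) := by simp [hj]
          _ ≤ _ := single_le_sum (f := fun j => if w j = Sum.inr true then 1 else 0)
              (fun _ _ => by positivity) (mem_univ j)
      omega
  have e1 := col_eq _ h01
  have e2 := col_eq _ h12
  have hn0 := num_zero w
  have hn2 := num_two w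
  have ht0 := tot_zero w
  have ht2 := tot_two w
  have hle := num_le (point w 0)
  unfold val at e1 e2
  rw [hn0, ht0] at e1
  rw [hn2, ht2] at e2
  set n := num (point w 1)
  set t := tot (point w 1)
  set A := up w
  set B := dn w
  rw [hn0] at hle
  -- the colours of the two ends
  obtain ⟨p, hp⟩ := e1
  obtain ⟨q, hq⟩ := e2
  have e3 : (K : ℤ) ∣ 2 * ((A : ℤ) - B) := ⟨-(p + q), by linear_combination -hp - hq⟩
  have hco : IsCoprime (K : ℤ) 2 := by
    obtain ⟨r, hr⟩ := hodd
    exact ⟨1, -r, by rw [hr]; push_cast; ring⟩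
  have e4 : (K : ℤ) ∣ (A : ℤ) - B := hco.dvd_of_dvd_mul_left e3
  have e5 : (K : ℤ) ∣ (((n + A + B) / 2 : ℕ) : ℤ) - ((n / 2 : ℕ) : ℤ) := by
    obtain ⟨r, hr⟩ := e4
    exact ⟨p + r, by linear_combination hp + hr⟩
  have hmono : n / 2 ≤ (n + A + B) / 2 := by omega
  have hlt : (n + A + B) / 2 < K := by omega
  have e6 : (((n + A + B) / 2 : ℕ) : ℤ) - ((n / 2 : ℕ) : ℤ) = 0 := by
    apply Int.eq_zero_of_abs_lt_dvd e5
    rw [abs_lt]
    constructor <;> omega
  have e7 : A + B = 1 := by omega
  have e8 : (A : ℤ) - B = 0 := by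
    apply Int.eq_zero_of_abs_lt_dvd e4
    rw [abs_lt]
    constructor <;> omega
  omega

lemma f_le {d K : ℕ} (hodd : Odd K) (h3 : 3 ≤ K) (hd : d / 2 < K) : f d ≤ K :=
  Nat.sInf_le ⟨_, noMono d K hodd h3 hd⟩

/-- For every odd `K ≥ 3` with `K > ⌊d/2⌋` there is a colouring of `{1,2,3}^d` with `K` colours
and no monochromatic line. Hence `f(d) ≤ ⌊d/2⌋ + 2` for every `d ≥ 2`, and `f(d) ≤ ⌊d/2⌋ + 1` for
every `d ≥ 4` with `⌊d/2⌋` even; in particular `f(4) ≤ 3` and `f(5) ≤ 3`. -/
theorem result :
    (∀ d K : ℕ, Odd K → 3 ≤ K → d / 2 < K →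
      ∃ χ : (Fin d → Fin 3) → Fin K, NoMonoLine χ) ∧
    (∀ d : ℕ, 2 ≤ d → f d ≤ d / 2 + 2) ∧
    (∀ d : ℕ, 4 ≤ d → Even (d / 2) → f d ≤ d / 2 + 1) ∧ f 4 ≤ 3 ∧ f 5 ≤ 3 := by
  refine ⟨fun d K h1 h2 h3 => ⟨_, noMono d K h1 h2 h3⟩, fun d hd => ?_, fun d hd he => ?_, ?_, ?_⟩
  · rcases Nat.even_or_odd (d / 2) with he | ho
    · have h2 : 2 ≤ d / 2 := by
        rcases he with ⟨r, hr⟩
        omega
      exact (f_le he.add_one (by omega) (by omega)).trans (by omega)
    · exact f_le (by rcases ho with ⟨r, hr⟩; exact ⟨r + 1, by omega⟩) (by omega) (by omega)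
  · exact f_le he.add_one (by omega) (by omega)
  · exact f_le (by decide) le_rfl (by norm_num)
  · exact f_le (by decide) le_rfl (by norm_num)

end Pool.Agent.Results.MP_fd3312_co.HalfDimension
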